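import Pool.Agent.helper52.ED.SpecP

set_option autoImplicit false

open Complex Metric Set Filter Topology MeasureTheory
open Pool.Agent.helper98.ILF Pool.Agent.helper16.Multibrot HY
open DH (co Tow yv jj FA REL)

noncomputable section

namespace ED

theorem TLO (hKLO : KLO_stmt) (hORB : ORB_stmt) (hBTP : DH.BTP_stmt) (hVKB : HY.VKB_stmt) : TLO_stmt := by
  obtain ⟨C, e, hC, he, h⟩ := hKLO
  refine ⟨C, e, hC, he, ?_⟩
  intro n c Φ b M k p t hM hFA i hi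
  have hT := hFA.tow
  obtain ⟨hSG, hOrb⟩ := hORB n c Φ b M k p t hFA
  obtain ⟨-, -, -, -, -, -, -, hsub, -, -, -, -⟩ := hVKB n c hT.hn hT.hc
  have hanti : ∀ k l : ℕ, k ≤ l → VV n c l ⊆ VV n c k := fun k l hkl =>
    antitone_nat_of_succ_le (f := VV n c) (fun m => hsub m) hkl
  obtain ⟨-, hB⟩ := hBTP n c Φ b hT
  obtain ⟨-, hyv, -, -⟩ := hB k t p hFA.mem
  have hmap : ∀ z ∈ VV n c (k + t - i), (fz n c)^[t - i] z ∈ VV n c k := by
    intro z hz
    have e1 : k + t - i = k + (t - i) := by omega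
    rw [e1] at hz
    have h1 : ‖(fz n c)^[k + (t - i)] z‖ < 4 := hz
    show ‖(fz n c)^[k] ((fz n c)^[t - i] z)‖ < 4
    rw [← Function.iterate_add_apply]
    exact h1
  obtain ⟨h1, h2⟩ := h n c (VV n c k) (Φ k) (Φ (k + 1)) (b k) M (yv Φ n c k p) t hSG hM hOrb i hi
    (VV n c (k + t - i)) (Φ (k + t - i)) (yv Φ n c (k + t - i) p i) (hT.rm _) (hanti k _ (by omega)) hmap
    (hyv _ i).1 (by rw [(hyv _ i).2, (hyv k i).2])
  refine ⟨h1.trans ?_, h2⟩
  have hy : ‖yv Φ n c k p i‖ < 1 := by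
    have := (hyv k i).1
    simpa [UD] using this
  have hPh : 0 ≤ PhV n c (Φ k) (yv Φ n c k p) i := by
    unfold PhV
    have : 0 ≤ 1 - ‖yv Φ n c k p i‖ ^ 2 := by nlinarith [norm_nonneg (yv Φ n c k p i)]
    positivity
  have hpow : (1 - ‖yv Φ n c k p i‖) ^ e ≤ 1 :=
    pow_le_one₀ (by linarith) (by linarith [norm_nonneg (yv Φ n c k p i)])
  calc C * (1 - ‖yv Φ n c k p i‖) ^ e * PhV n c (Φ k) (yv Φ n c k p) i
      ≤ C * 1 * PhV n c (Φ k) (yv Φ n c k p) i := by gcongr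
    _ = C * PhV n c (Φ k) (yv Φ n c k p) i := by ring

end ED
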